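import Mathlib

/-! Midpoint convexity of the square of a uniformly convex seminorm on bounded sets, and the
cardinality of dense subsets of linear spans. -/

set_option autoImplicit false
open Set Filter Topology Cardinal

namespace Pool.Agent.Helper32.PC

universe u

variable {X : Type u} [NormedAddCommGroup X] [NormedSpace ℝ X]

/-- The square of a uniformly convex seminorm is uniformly convex on bounded sets. -/
lemma midpoint_sq (q : Seminorm ℝ X)
    (hq : ∀ ε : ℝ, 0 < ε → ε ≤ 2 → ∃ δ : ℝ, 0 < δ ∧ ∀ x y, q x ≤ 1 → q y ≤ 1 → ε ≤ q (x - y) →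
      q ((1/2:ℝ) • (x + y)) ≤ 1 - δ) {R c : ℝ} (hR : 0 < R) (hc : 0 < c) :
    ∃ η : ℝ, 0 < η ∧ ∀ x y, q x ≤ R → q y ≤ R → c ≤ q (x - y) →
      q ((1/2:ℝ) • (x + y)) ^ 2 ≤ (q x ^ 2 + q y ^ 2) / 2 - η := by
  by_cases hcR : 2 * R < c
  · refine ⟨1, one_pos, fun x y hx hy hxy => ?_⟩
    have := map_sub_le_add q x y
    linarith
  push Not at hcR
  obtain ⟨δ, hδ, h⟩ := hq (c / R) (by positivity) (by rw [div_le_iff₀ hR]; exact hcR)
  set k : ℝ := δ * c / 2 with hk
  have k0 : 0 < k := by positivity
  refine ⟨min (k ^ 2 / 16) (c * k / 4), by positivity, ?_⟩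
  have key : ∀ x y, q y ≤ q x → q x ≤ R → c ≤ q (x - y) →
      q ((1/2:ℝ) • (x + y)) ^ 2 ≤ (q x ^ 2 + q y ^ 2) / 2 - min (k ^ 2 / 16) (c * k / 4) := by
    intro x y hyx hx hxy
    have m0 : 0 ≤ q ((1/2:ℝ) • (x + y)) := apply_nonneg _ _
    have m1 : q ((1/2:ℝ) • (x + y)) ≤ (q x + q y) / 2 := by
      rw [map_smul_eq_mul, Real.norm_of_nonneg (by norm_num)]
      have := map_add_le_add q x y
      linarith
    have hr : c ≤ 2 * q x := by
      have := map_sub_le_add q x y
      linarith
    have r0 : 0 < q x := by linarith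
    have y0 : 0 ≤ q y := apply_nonneg _ _
    by_cases hs : k / 2 ≤ q x - q y
    · refine le_trans ?_ (sub_le_sub_left (min_le_left _ _) _)
      have : q ((1/2:ℝ) • (x + y)) ^ 2 ≤ ((q x + q y) / 2) ^ 2 := by gcongr
      nlinarith
    · push Not at hs
      refine le_trans ?_ (sub_le_sub_left (min_le_right _ _) _)
      have hsc : ∀ z : X, q ((1 / q x) • z) = q z / q x := by
        intro z
        rw [map_smul_eq_mul, Real.norm_eq_abs, abs_of_pos (by positivity)]
        ring
      have h1 := h ((1 / q x) • x) ((1 / q x) • y)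
        (by rw [hsc, div_self r0.ne'])
        (by rw [hsc, div_le_one r0]; exact hyx)
        (by
          rw [← smul_sub, hsc, div_le_div_iff₀ hR r0]
          nlinarith)
      rw [← smul_add, smul_comm, hsc, div_le_iff₀ r0] at h1
      have h2 : q ((1/2:ℝ) • (x + y)) ≤ q x - k := by
        have : k ≤ δ * q x := by rw [hk]; nlinarith
        linarith
      have h3 : k ≤ q x := by linarith
      have h4 : q ((1/2:ℝ) • (x + y)) ^ 2 ≤ (q x - k) ^ 2 := by gcongr
      have h5 : (q x - k / 2) ^ 2 ≤ q y ^ 2 := by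
        have : 0 ≤ q x - k / 2 := by linarith
        gcongr
        linarith
      nlinarith
  intro x y hx hy hxy
  rcases le_total (q y) (q x) with hh | hh
  · exact key x y hh hx hxy
  · have := key y x hh hy (by rw [map_sub_rev]; exact hxy)
    rw [add_comm y x, add_comm (q y ^ 2)] at this
    exact this

/-- A linear span is contained in the closure of a set of the same (or countable) cardinality. -/
lemma exists_small_dense (F : Set X) :
    ∃ D : Set X, #D ≤ max ℵ₀ #F ∧ (Submodule.span ℝ F : Set X) ⊆ closure D := by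
  let g : List (ℚ × F) → X := fun l => (l.map fun p => (p.1 : ℝ) • (p.2 : X)).sum
  have gadd : ∀ a ∈ range g, ∀ b ∈ range g, a + b ∈ range g := by
    rintro _ ⟨l, rfl⟩ _ ⟨m, rfl⟩
    exact ⟨l ++ m, by simp [g]⟩
  have gsmul : ∀ r ∈ range ((↑) : ℚ → ℝ), ∀ b ∈ range g, r • b ∈ range g := by
    rintro _ ⟨r, rfl⟩ _ ⟨m, rfl⟩
    refine ⟨m.map fun p => (r * p.1, p.2), ?_⟩
    simp only [g, List.map_map, Function.comp_def, List.smul_sum, smul_smul]
    push_cast
    rfl
  let S : Submodule ℝ X :=
    { carrier := closure (range g)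
      zero_mem' := subset_closure ⟨[], by simp [g]⟩
      add_mem' := fun {x y} hx hy => map_mem_closure₂ continuous_add hx hy gadd
      smul_mem' := fun r x hx => by
        have hr : r ∈ closure (range ((↑) : ℚ → ℝ)) := by
          rw [Rat.denseRange_cast.closure_range]; trivial
        exact map_mem_closure₂ (continuous_smul (M := ℝ) (X := X)) hr hx gsmul }
  refine ⟨range g, ?_, ?_⟩
  · refine mk_range_le.trans ?_
    refine (mk_list_le_max _).trans ?_
    rw [mk_prod]
    refine max_le (le_max_left _ _) ?_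
    refine (mul_le_max _ _).trans ?_
    simp
  · have : Submodule.span ℝ F ≤ S := Submodule.span_le.2 fun p hp =>
      subset_closure ⟨[(1, ⟨p, hp⟩)], by simp [g]⟩
    exact this

end Pool.Agent.Helper32.PC
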