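import Pool.Agent.Helper32.PC.Conv

/-! The max-min argument: in a space with an equivalent uniformly convex norm there are vectors
with asymptotic gain, in every density character. -/

set_option autoImplicit false
open Set Filter Topology Cardinal

namespace Pool.Agent.Helper32.PC

universe u

variable {X : Type u} [NormedAddCommGroup X] [NormedSpace ℝ X]

/-- The penalised square of the norm. -/
noncomputable def Q (q : Seminorm ℝ X) (θ : ℝ) (x : X) : ℝ := ‖x‖ ^ 2 + θ * q x ^ 2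

lemma Q_smul (q : Seminorm ℝ X) (θ s : ℝ) (x : X) : Q q θ (s • x) = s ^ 2 * Q q θ x := by
  rw [Q, Q, norm_smul, map_smul_eq_mul, mul_pow, mul_pow, Real.norm_eq_abs, sq_abs]
  ring

lemma scale (q : Seminorm ℝ X) {θ w : ℝ} {F : Set X}
    (h : ∀ x : X, ‖x‖ < 1 → ∃ y ∈ Submodule.span ℝ F, Q q θ (x + y) ≤ w) {s : ℝ} (hs : 0 < s)
    (x : X) (hx : ‖x‖ < s) : ∃ y ∈ Submodule.span ℝ F, Q q θ (x + y) ≤ s ^ 2 * w := by
  obtain ⟨y, hy, h⟩ := h (s⁻¹ • x) (by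
    rw [norm_smul, Real.norm_of_nonneg (by positivity), inv_mul_lt_iff₀ hs, mul_one]
    exact hx)
  refine ⟨s • y, Submodule.smul_mem _ _ hy, ?_⟩
  have e : x + s • y = s • (s⁻¹ • x + y) := by rw [smul_add, smul_inv_smul₀ hs.ne']
  rw [e, Q_smul]
  gcongr

theorem gain (q : Seminorm ℝ X) {c₀ C₀ : ℝ} (hc₀ : 0 < c₀) (h1 : ∀ x, c₀ * ‖x‖ ≤ q x)
    (hC₀ : 0 ≤ C₀) (h2 : ∀ x, q x ≤ C₀ * ‖x‖)
    (hq : ∀ ε : ℝ, 0 < ε → ε ≤ 2 → ∃ δ : ℝ, 0 < δ ∧ ∀ x y, q x ≤ 1 → q y ≤ 1 → ε ≤ q (x - y) →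
      q ((1/2:ℝ) • (x + y)) ≤ 1 - δ)
    {κ : Cardinal.{u}} (hκ : ℵ₀ ≤ κ)
    (hnd : ∀ F : Set X, #F < κ → ∃ x, x ∉ closure (Submodule.span ℝ F : Set X)) :
    ∃ α β : ℝ, 0 < α ∧ α < β ∧ ∃ F₀ : Set X, #F₀ < κ ∧ ∀ F : Set X, #F < κ → F₀ ⊆ F →
      ∃ b : X, ‖b‖ ≤ α ∧ (∀ y ∈ Submodule.span ℝ F, 1 / 2 ≤ ‖b + y‖) ∧
        ∀ w ∈ Submodule.span ℝ F, (∀ v ∈ Submodule.span ℝ F₀, 1 / 4 ≤ ‖w + v‖) →
          β ≤ ‖w + b‖ := by
  classical
  let S : ℝ → Set ℝ := fun θ => {w | ∃ F : Set X, #F < κ ∧ ∀ x : X, ‖x‖ < 1 →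
    ∃ y ∈ Submodule.span ℝ F, Q q θ (x + y) ≤ w}
  let W : ℝ → ℝ := fun θ => sInf (S θ)
  have Sup : ∀ θ, 0 ≤ θ → 1 + θ * C₀ ^ 2 ∈ S θ := by
    intro θ hθ
    refine ⟨∅, by rw [mk_eq_zero]; exact aleph0_pos.trans_le hκ, fun x hx => ⟨0, by simp, ?_⟩⟩
    rw [add_zero, Q]
    have a1 : ‖x‖ ^ 2 ≤ 1 := pow_le_one₀ (norm_nonneg _) hx.le
    have a2 : q x ≤ C₀ := (h2 x).trans (mul_le_of_le_one_right hC₀ hx.le)
    have a3 : q x ^ 2 ≤ C₀ ^ 2 := pow_le_pow_left₀ (apply_nonneg _ _) a2 2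
    nlinarith
  have Slb : ∀ θ, 0 ≤ θ → ∀ w ∈ S θ, 1 / 4 ≤ w := by
    rintro θ hθ w ⟨F, hF, hw⟩
    obtain ⟨z, hz⟩ := hnd F hF
    obtain ⟨x, hx, hr⟩ := riesz_lemma (F := (Submodule.span ℝ F).topologicalClosure)
      (Submodule.isClosed_topologicalClosure _) ⟨z, hz⟩ (r := 3 / 4) (by norm_num)
    have x0 : 0 < ‖x‖ := norm_pos_iff.2 fun h => hx (h ▸ Submodule.zero_mem _)
    obtain ⟨y, hy, h⟩ := hw (((3 / 4) / ‖x‖) • x) (by
      rw [norm_smul, Real.norm_of_nonneg (by positivity), div_mul_cancel₀ _ x0.ne']; norm_num)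
    have k := hr (-((‖x‖ / (3 / 4)) • y)) (Submodule.neg_mem _ (Submodule.smul_mem _ _
      (Submodule.le_topologicalClosure _ hy)))
    have e : x - -((‖x‖ / (3 / 4)) • y) = (‖x‖ / (3 / 4)) • (((3 / 4) / ‖x‖) • x + y) := by
      rw [smul_add, smul_smul, sub_neg_eq_add, div_mul_div_cancel₀ (by norm_num), div_self x0.ne',
        one_smul]
    rw [e, norm_smul, Real.norm_of_nonneg (by positivity)] at k
    have k2 : 9 / 16 ≤ ‖((3 / 4) / ‖x‖) • x + y‖ := by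
      by_contra! hh
      have : ‖x‖ / (3 / 4) * ‖((3 / 4) / ‖x‖) • x + y‖ < ‖x‖ / (3 / 4) * (9 / 16) := by gcongr
      linarith
    refine le_trans ?_ h
    rw [Q]
    have : 0 ≤ θ * q (((3 / 4) / ‖x‖) • x + y) ^ 2 := by positivity
    nlinarith
  have Sbdd : ∀ θ, 0 ≤ θ → BddBelow (S θ) := fun θ hθ => ⟨1 / 4, Slb θ hθ⟩
  have Wle : ∀ θ, 0 ≤ θ → W θ ≤ 1 + θ * C₀ ^ 2 := fun θ hθ => csInf_le (Sbdd θ hθ) (Sup θ hθ)
  have Wge : ∀ θ, 0 ≤ θ → 1 / 4 ≤ W θ := fun θ hθ => le_csInf ⟨_, Sup θ hθ⟩ (Slb θ hθ)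
  have pigeon : ∀ τ : ℝ, 0 < τ → ∃ θ : ℝ, 0 < θ ∧ θ ≤ 1 ∧
      W (θ / 2) ≤ 1 + (W θ - 1) / 2 + θ / 2 * τ := by
    intro τ hτ
    by_contra! H
    have ind : ∀ k : ℕ, 1 + (1 / 2 : ℝ) ^ k * (-1 + k * τ) ≤ W ((1 / 2) ^ k) := by
      intro k
      induction k with
      | zero => have := Wge 1 zero_le_one; simp; linarith
      | succ k ih =>
        have := H ((1 / 2) ^ k) (by positivity) (pow_le_one₀ (by norm_num) (by norm_num))
        rw [show (1 / 2 : ℝ) ^ k / 2 = (1 / 2) ^ (k + 1) by rw [pow_succ]; ring] at this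
        refine le_trans ?_ this.le
        push_cast
        rw [pow_succ]
        nlinarith
    obtain ⟨k, hk⟩ := exists_nat_gt ((C₀ ^ 2 + 1) / τ)
    rw [div_lt_iff₀ hτ] at hk
    have a := (ind k).trans (Wle _ (by positivity))
    have b : (0 : ℝ) < (1 / 2) ^ k := by positivity
    nlinarith
  set R : ℝ := C₀ * (2 + C₀) + 1 with hR
  have R0 : 0 < R := by positivity
  obtain ⟨η, η0, hη⟩ := midpoint_sq q hq R0 (show 0 < c₀ / 4 by positivity)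
  set τ : ℝ := min (1 / 40) (η / (4 * (10 + C₀ ^ 2))) with hτ
  have τ0 : 0 < τ := by positivity
  have τ1 : τ ≤ 1 / 40 := min_le_left _ _
  have τ2 : τ * (10 + C₀ ^ 2) ≤ η / 4 := by
    have : τ ≤ η / (4 * (10 + C₀ ^ 2)) := min_le_right _ _
    rw [le_div_iff₀ (by positivity)] at this
    linarith
  obtain ⟨θ, θ0, θ1, hθ⟩ := pigeon τ τ0
  have p0 : 0 < θ * τ := by positivity
  have p1 : θ * τ ≤ 1 / 40 := by nlinarith
  have V1 := Wge θ θ0.le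
  have V2 := Wle θ θ0.le
  have V3 : W θ ≤ 1 + C₀ ^ 2 := by nlinarith [sq_nonneg C₀]
  obtain ⟨w₀, ⟨F₁, hF₁, H1⟩, hw₀⟩ := exists_lt_of_csInf_lt ⟨_, Sup (θ / 2) (by positivity)⟩
    (show sInf (S (θ / 2)) < W (θ / 2) + θ / 2 * τ by
      have : W (θ / 2) = sInf (S (θ / 2)) := rfl
      rw [← this]; linarith)
  obtain ⟨w₁, ⟨F₂, hF₂, H2⟩, hw₁⟩ := exists_lt_of_csInf_lt ⟨_, Sup θ θ0.le⟩
    (show sInf (S θ) < W θ + θ * τ by
      have : W θ = sInf (S θ) := rfl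
      rw [← this]; linarith)
  have w₀B : w₀ ≤ (1 + W θ) / 2 + θ * τ := by linarith
  have w₀0 : 1 / 4 ≤ w₀ := Slb (θ / 2) (by positivity) _ ⟨F₁, hF₁, H1⟩
  refine ⟨√(1 + 3 * (θ * τ)), √(1 + 4 * (θ * τ)), by positivity,
    Real.sqrt_lt_sqrt (by positivity) (by linarith), F₁ ∪ F₂,
    (mk_union_le _ _).trans_lt (add_lt_of_lt hκ hF₁ hF₂), fun F hF hFF => ?_⟩
  have s1 : Submodule.span ℝ F₁ ≤ Submodule.span ℝ F :=
    Submodule.span_mono (subset_union_left.trans hFF)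
  have s2 : Submodule.span ℝ F₂ ≤ Submodule.span ℝ F :=
    Submodule.span_mono (subset_union_right.trans hFF)
  have s3 : Submodule.span ℝ F₁ ≤ Submodule.span ℝ (F₁ ∪ F₂) :=
    Submodule.span_mono subset_union_left
  obtain ⟨x, hx, hxF⟩ : ∃ x : X, ‖x‖ < 1 ∧ ∀ y ∈ Submodule.span ℝ F,
      W θ - θ * τ < Q q θ (x + y) := by
    by_contra! H
    have : W θ ≤ W θ - θ * τ := csInf_le (Sbdd θ θ0.le) ⟨F, hF, H⟩
    linarith
  obtain ⟨y₀, hy₀, hb⟩ := H1 x hx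
  set b := x + y₀ with hbdef
  have hbF : ∀ y ∈ Submodule.span ℝ F, W θ - θ * τ < ‖b + y‖ ^ 2 + θ * q (b + y) ^ 2 := by
    intro y hy
    have := hxF (y₀ + y) (Submodule.add_mem _ (s1 hy₀) hy)
    rwa [← add_assoc] at this
  have hb' : ‖b‖ ^ 2 + θ / 2 * q b ^ 2 ≤ w₀ := hb
  have hb0 := hbF 0 (Submodule.zero_mem _)
  rw [add_zero] at hb0
  have nb : ‖b‖ ^ 2 ≤ 1 + 3 * (θ * τ) := by linarith
  have far : ∀ y ∈ Submodule.span ℝ F, 1 - 9 * (θ * τ) ≤ ‖b + y‖ ^ 2 := by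
    intro y hy
    by_contra! hh
    have s0 : 0 < 1 - 9 * (θ * τ) := by linarith
    obtain ⟨y', hy', k⟩ := scale q H2 (Real.sqrt_pos.2 s0) (b + y)
      (Real.lt_sqrt_of_sq_lt hh)
    rw [Real.sq_sqrt s0.le, Q, add_assoc] at k
    have k2 := hbF (y + y') (Submodule.add_mem _ hy (s2 hy'))
    have k3 : (1 - 9 * (θ * τ)) * w₁ ≤ (1 - 9 * (θ * τ)) * (W θ + θ * τ) := by gcongr
    nlinarith
  refine ⟨b, Real.le_sqrt_of_sq_le nb, fun y hy => ?_, fun w hw hwF => ?_⟩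
  · have := far y hy
    by_contra! hh
    have : ‖b + y‖ ^ 2 < (1 / 2) ^ 2 := pow_lt_pow_left₀ hh (norm_nonneg _) two_ne_zero
    linarith
  · by_contra! hh
    have β0 : 0 < √(1 + 4 * (θ * τ)) := by positivity
    rw [add_comm] at hh
    obtain ⟨v, hv, k⟩ := scale q H1 β0 (b + w) hh
    rw [Real.sq_sqrt (by positivity), Q, add_assoc] at k
    set w' := w + v with hw'
    have w'F : w' ∈ Submodule.span ℝ F := Submodule.add_mem _ hw (s1 hv)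
    have nw : 1 / 4 ≤ ‖w'‖ := hwF v (s3 hv)
    have qw : c₀ / 4 ≤ q w' := by
      refine le_trans ?_ (h1 w')
      nlinarith
    have nb2 : ‖b‖ ≤ 2 := by
      refine le_of_sq_le_sq ?_ (by norm_num)
      linarith
    have qb : q b ≤ R := by
      have a1 : C₀ * ‖b‖ ≤ C₀ * 2 := by gcongr
      have a2 := h2 b
      have a3 : 0 ≤ C₀ * C₀ := by positivity
      rw [hR, mul_add]
      linarith
    have q0 : 0 ≤ θ / 2 * q (b + w') ^ 2 := by positivity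
    have bw : (1 + 4 * (θ * τ)) * w₀ ≤ 4 + C₀ ^ 2 := by
      have : w₀ ≤ 2 + C₀ ^ 2 / 2 := by linarith
      nlinarith [sq_nonneg C₀]
    have nbw : ‖b + w'‖ ≤ 2 + C₀ := by
      refine le_of_sq_le_sq ?_ (by positivity)
      nlinarith
    have qbw : q (b + w') ≤ R := by
      have : C₀ * ‖b + w'‖ ≤ C₀ * (2 + C₀) := by gcongr
      have := h2 (b + w')
      linarith
    have m := hη b (b + w') qb qbw (by
      rw [sub_add_cancel_left, map_neg_eq_map]; exact qw)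
    have em : (1 / 2 : ℝ) • (b + (b + w')) = b + (1 / 2 : ℝ) • w' := by module
    have m2 : ‖(1 / 2 : ℝ) • (b + (b + w'))‖ ^ 2 ≤ (‖b‖ ^ 2 + ‖b + w'‖ ^ 2) / 2 := by
      have : ‖(1 / 2 : ℝ) • (b + (b + w'))‖ ≤ (‖b‖ + ‖b + w'‖) / 2 := by
        rw [norm_smul, Real.norm_of_nonneg (by norm_num)]
        have := norm_add_le b (b + w')
        linarith
      have := pow_le_pow_left₀ (norm_nonneg _) this 2
      nlinarith [sq_nonneg (‖b‖ - ‖b + w'‖)]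
    rw [em] at m m2
    have hw2 : (1 / 2 : ℝ) • w' ∈ Submodule.span ℝ F := Submodule.smul_mem _ _ w'F
    have l1 := hbF _ hw2
    have l2 := far _ hw2
    have l3 : θ * q (b + (1 / 2 : ℝ) • w') ^ 2 ≤ θ * ((q b ^ 2 + q (b + w') ^ 2) / 2 - η) := by
      gcongr
    have l4 : (1 + 2 * (θ * τ)) * w₀ ≤ (1 + 2 * (θ * τ)) * ((1 + W θ) / 2 + θ * τ) := by gcongr
    have l5 : θ * (τ * (10 + C₀ ^ 2)) ≤ θ * (η / 4) := by gcongr
    have l6 : θ * τ * (1 + W θ) ≤ θ * τ * (2 + C₀ ^ 2) :=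
      mul_le_mul_of_nonneg_left (by linarith) p0.le
    have l7 : 0 < θ * η := by positivity
    have l8 : θ * τ * (θ * τ) ≤ θ * τ * 1 :=
      mul_le_mul_of_nonneg_left (by linarith) p0.le
    nlinarith

end Pool.Agent.Helper32.PC
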