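import Pool.Agent.Helper32.PC.Gain
import Pool.Agent.H.MP_ef1120_an.C
import Pool.Agent.R571.PC.UC

/-! The transfinite greedy packing, in every density character. -/

set_option autoImplicit false
open Set Filter Topology Cardinal

namespace Pool.Agent.Helper32.PC

universe u

variable {X : Type u} [NormedAddCommGroup X] [NormedSpace ℝ X]

theorem greedy {κ : Cardinal.{u}} (hκ : ℵ₀ ≤ κ) {D : Set X} (hD : #D ≤ κ) (dD : Dense D)
    {α β : ℝ} (a0 : 0 < α) (ab : α < β) {F₀ : Set X} (hF₀ : #F₀ < κ)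
    (hb : ∀ F : Set X, #F < κ → F₀ ⊆ F → ∃ b : X, ‖b‖ ≤ α ∧
      (∀ y ∈ Submodule.span ℝ F, 1 / 2 ≤ ‖b + y‖) ∧ ∀ w ∈ Submodule.span ℝ F,
        (∀ v ∈ Submodule.span ℝ F₀, 1 / 4 ≤ ‖w + v‖) → β ≤ ‖w + b‖) :
    ∃ r < 2, 0 < r ∧ ∃ P : Set X, (∀ x ∈ P, ∀ y ∈ P, x ≠ y → 2 ≤ ‖x - y‖) ∧
      ∀ x, ∃ p ∈ P, ‖x - p‖ ≤ r := by
  obtain ⟨δ, hδ⟩ : ∃ δ, δ = (β - α) / (2 * β) := ⟨_, rfl⟩
  have d0 : 0 < δ := by rw [hδ]; exact div_pos (by linarith) (by linarith)
  have d1 : δ < 1 / 2 := by rw [hδ, div_lt_iff₀ (by linarith)]; linarith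
  obtain ⟨ρ, hρ⟩ : ∃ ρ, ρ = (2 - 2 * δ) / α := ⟨_, rfl⟩
  have r0 : 0 < ρ := by rw [hρ]; exact div_pos (by linarith) a0
  have r1 : ρ * α = 2 - 2 * δ := by rw [hρ]; field_simp
  have r2 : 2 + δ ≤ ρ * β := by
    have : δ * (2 * β) = β - α := by rw [hδ, div_mul_cancel₀ _ (by linarith)]
    rw [hρ, div_mul_eq_mul_div, le_div_iff₀ a0]
    nlinarith
  let Gd : X → Prop := fun d => ∀ v ∈ Submodule.span ℝ F₀, ρ / 2 ≤ ‖d + v‖
  obtain ⟨P, h1, h2⟩ := Pool.Agent.H.MP_ef1120_an.recur hD (G := fun p q => 2 ≤ ‖p - q‖ ∧ Gd (p - q))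
    (R := fun x p => ‖x - p‖ ≤ 2 - δ) fun F hF hG x => by
      by_cases c : ∃ q ∈ F, ‖x - q‖ ≤ 2 - δ
      · obtain ⟨q, hq, c⟩ := c
        exact ⟨q, c, by rwa [insert_eq_of_mem hq]⟩
      push Not at c
      let u : Option F → X := fun o => o.elim 0 fun q => (δ / ‖x - q‖) • (x - q)
      obtain ⟨e, he1, he2, he3⟩ := hb (F ∪ {x} ∪ F₀)
        ((mk_union_le _ _).trans_lt (add_lt_of_lt hκ ((mk_union_le _ _).trans_lt
          (add_lt_of_lt hκ hF (by rw [mk_singleton]; exact one_lt_aleph0.trans_le hκ))) hF₀))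
        subset_union_right
      have mF : ∀ q ∈ F, q ∈ Submodule.span ℝ (F ∪ {x} ∪ F₀) := fun q hq =>
        Submodule.subset_span (.inl (.inl hq))
      have mx : x ∈ Submodule.span ℝ (F ∪ {x} ∪ F₀) := Submodule.subset_span (.inl (.inr rfl))
      have mF₀ : Submodule.span ℝ F₀ ≤ Submodule.span ℝ (F ∪ {x} ∪ F₀) :=
        Submodule.span_mono subset_union_right
      have mu : ∀ o, u o ∈ Submodule.span ℝ (F ∪ {x} ∪ F₀) := by
        rintro (_ | q)
        · exact Submodule.zero_mem _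
        · exact Submodule.smul_mem _ _ (Submodule.sub_mem _ mx (mF q q.2))
      have A : ∀ q ∈ F, ∀ q' ∈ F, q ≠ q' → 2 * (2 + δ) ≤ ‖q - q' + (2 * ρ) • e‖ := by
        intro q hq q' hq' hne
        have t := he3 ((2 * ρ)⁻¹ • (q - q')) (Submodule.smul_mem _ _
          (Submodule.sub_mem _ (mF q hq) (mF q' hq'))) fun v hv => by
            have := (hG hq hq' hne).2 ((2 * ρ) • v) (Submodule.smul_mem _ _ hv)
            rw [show q - q' + (2 * ρ) • v = (2 * ρ) • ((2 * ρ)⁻¹ • (q - q') + v) by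
              rw [smul_add, smul_inv_smul₀ (by positivity)], norm_smul,
              Real.norm_of_nonneg (by positivity)] at this
            nlinarith
        rw [show q - q' + (2 * ρ) • e = (2 * ρ) • ((2 * ρ)⁻¹ • (q - q') + e) by
          rw [smul_add, smul_inv_smul₀ (by positivity)], norm_smul,
          Real.norm_of_nonneg (by positivity)]
        nlinarith
      have B : ∀ z ∈ Submodule.span ℝ (F ∪ {x} ∪ F₀), ∀ σ : ℝ, (σ = 1 ∨ σ = -1) →
          Gd (z + (σ * ρ) • e) := by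
        intro z hz σ hσ v hv
        have hs : σ * σ = 1 := by rcases hσ with rfl | rfl <;> norm_num
        have hσ0 : σ ≠ 0 := by rcases hσ with rfl | rfl <;> norm_num
        have t := he2 ((σ * ρ)⁻¹ • (z + v)) (Submodule.smul_mem _ _
          (Submodule.add_mem _ hz (mF₀ hv)))
        rw [show z + (σ * ρ) • e + v = (σ * ρ) • (e + (σ * ρ)⁻¹ • (z + v)) by
          rw [smul_add, smul_inv_smul₀ (by positivity)]; abel, norm_smul,
          show ‖σ * ρ‖ = ρ by rcases hσ with rfl | rfl <;> simp [r0.le]]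
        nlinarith
      have k : ∃ o, ∃ σ : ℝ, (σ = 1 ∨ σ = -1) ∧ ∀ q ∈ F, 2 ≤ ‖x + u o - q + (σ * ρ) • e‖ := by
        by_cases c1 : ∀ q ∈ F, 2 + δ ≤ ‖x - q + (1 * ρ) • e‖
        · exact ⟨none, 1, by simp, fun q hq => by
            simp only [u, Option.elim, add_zero]; linarith [c1 q hq]⟩
        by_cases c2 : ∀ q ∈ F, 2 + δ ≤ ‖x - q + (-1 * ρ) • e‖
        · exact ⟨none, -1, by simp, fun q hq => by
            simp only [u, Option.elim, add_zero]; linarith [c2 q hq]⟩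
        push Not at c1 c2
        obtain ⟨a, ha, c1⟩ := c1
        obtain ⟨b, hb, c2⟩ := c2
        have o : ∀ a ∈ F, ∀ b ∈ F, ‖x - a + (1 * ρ) • e‖ < 2 + δ →
            ‖x - b + (-1 * ρ) • e‖ < 2 + δ → b = a := fun a ha b hb c1 c2 => by
          by_contra hh
          have := A b hb a ha hh
          have t := norm_sub_le (x - a + (1 * ρ) • e) (x - b + (-1 * ρ) • e)
          rw [show x - a + (1 * ρ) • e - (x - b + (-1 * ρ) • e) = b - a + (2 * ρ) • e by
            module] at t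
          linarith
        obtain rfl := o a ha b hb c1 c2
        have w0 : 0 < ‖x - b‖ := by linarith [c b hb]
        have un : ‖u (some ⟨b, hb⟩)‖ = δ := by
          simp only [u, Option.elim, norm_smul, Real.norm_of_nonneg (div_pos d0 w0).le]
          field_simp
        have w : 2 ≤ ‖x + u (some ⟨b, hb⟩) - b‖ := by
          rw [show x + u (some ⟨b, hb⟩) - b = (1 + δ / ‖x - b‖) • (x - b) by
            simp only [u, Option.elim]; module,
            norm_smul, Real.norm_of_nonneg (by positivity), add_mul, div_mul_cancel₀ _ w0.ne']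
          linarith [c b hb]
        have f : ∀ (σ : ℝ) q, 2 + δ ≤ ‖x - q + (σ * ρ) • e‖ →
            2 ≤ ‖x + u (some ⟨b, hb⟩) - q + (σ * ρ) • e‖ := fun σ q h => by
          have t := norm_sub_le (x + u (some ⟨b, hb⟩) - q + (σ * ρ) • e) (u (some ⟨b, hb⟩))
          rw [show x + u (some ⟨b, hb⟩) - q + (σ * ρ) • e - u (some ⟨b, hb⟩) =
            x - q + (σ * ρ) • e by abel] at t
          linarith
        by_cases s : 2 ≤ ‖x + u (some ⟨b, hb⟩) - b + (1 * ρ) • e‖
        · refine ⟨some ⟨b, hb⟩, 1, by simp, fun q hq => ?_⟩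
          by_cases h : ‖x - q + (1 * ρ) • e‖ < 2 + δ
          · rwa [← o q hq b hb h c2]
          · exact f _ _ (not_lt.1 h)
        · refine ⟨some ⟨b, hb⟩, -1, by simp, fun q hq => ?_⟩
          by_cases h : ‖x - q + (-1 * ρ) • e‖ < 2 + δ
          · rw [o b hb q hq c1 h]
            have t := norm_add_le (x + u (some ⟨b, hb⟩) - b + (1 * ρ) • e)
              (x + u (some ⟨b, hb⟩) - b + (-1 * ρ) • e)
            rw [show x + u (some ⟨b, hb⟩) - b + (1 * ρ) • e +
              (x + u (some ⟨b, hb⟩) - b + (-1 * ρ) • e) =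
              (2 : ℝ) • (x + u (some ⟨b, hb⟩) - b) by module, norm_smul, Real.norm_two] at t
            linarith
          · exact f _ _ (not_lt.1 h)
      obtain ⟨o, σ, hσ, k⟩ := k
      refine ⟨x + u o + (σ * ρ) • e, ?_, pairwise_insert.2 ⟨hG, fun q hq _ => ?_⟩⟩
      · rw [add_assoc, sub_add_cancel_left, norm_neg]
        refine (norm_add_le _ _).trans ?_
        have : ‖u o‖ ≤ δ := by
          rcases o with _ | q
          · simp [u, d0.le]
          · simp only [u, Option.elim, norm_smul,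
              Real.norm_of_nonneg (div_nonneg d0.le (norm_nonneg _))]
            rw [div_mul_cancel₀ _ (by linarith [c q q.2])]
        have : ‖(σ * ρ) • e‖ ≤ ρ * α := by
          rw [norm_smul, show ‖σ * ρ‖ = ρ by rcases hσ with rfl | rfl <;> simp [r0.le]]
          exact mul_le_mul_of_nonneg_left he1 r0.le
        linarith
      · have m1 : x + u o - q ∈ Submodule.span ℝ (F ∪ {x} ∪ F₀) :=
          Submodule.sub_mem _ (Submodule.add_mem _ mx (mu o)) (mF q hq)
        have m2 : q - (x + u o) ∈ Submodule.span ℝ (F ∪ {x} ∪ F₀) :=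
          Submodule.sub_mem _ (mF q hq) (Submodule.add_mem _ mx (mu o))
        rw [norm_sub_rev q, add_sub_right_comm]
        refine ⟨⟨k q hq, B _ m1 σ hσ⟩, k q hq, ?_⟩
        convert B _ m2 (-σ) (by rcases hσ with rfl | rfl <;> simp) using 1
        module
  refine ⟨2 - δ / 2, by linarith, by linarith, P, fun x hx y hy e => (h1 hx hy e).1,
    fun x => ?_⟩
  obtain ⟨y, hy, e⟩ := dD.exists_dist_lt x (half_pos d0)
  obtain ⟨p, hp, f⟩ := h2 y hy
  refine ⟨p, hp, ?_⟩
  rw [dist_eq_norm] at e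
  linarith [norm_sub_le_norm_sub_add_norm_sub x y p]

open Pool.Agent.R571.PC in
/-- Every space with an equivalent uniformly convex norm, of any density character. -/
theorem main (h : HasEquivUCNorm X) : ∃ r < 2, 0 < r ∧ ∃ P : Set X,
    (∀ x ∈ P, ∀ y ∈ P, x ≠ y → 2 ≤ ‖x - y‖) ∧ ∀ x, ∃ p ∈ P, ‖x - p‖ ≤ r := by
  by_cases hsep : TopologicalSpace.SeparableSpace X
  · exact Pool.Agent.H.MP_ef1120_an.sep
  obtain ⟨q, ⟨c, hc, h1⟩, ⟨C, h2⟩, hq⟩ := h
  have h2' : ∀ x, q x ≤ |C| * ‖x‖ := fun x => (h2 x).trans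
    (mul_le_mul_of_nonneg_right (le_abs_self _) (norm_nonneg _))
  let K : Set Cardinal.{u} := {k | ∃ D : Set X, Dense D ∧ #D = k}
  obtain ⟨D, dD, hD⟩ : sInf K ∈ K := csInf_mem ⟨_, univ, dense_univ, rfl⟩
  have hmin : ∀ E : Set X, Dense E → sInf K ≤ #E := fun E hE => csInf_le' ⟨E, hE, rfl⟩
  have hκ : ℵ₀ < sInf K := by
    by_contra! hh
    rw [← hD] at hh
    exact hsep ⟨D, le_aleph0_iff_set_countable.1 hh, dD⟩
  have hnd : ∀ F : Set X, #F < sInf K → ∃ x, x ∉ closure (Submodule.span ℝ F : Set X) := by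
    intro F hF
    by_contra! hh
    obtain ⟨E, hE, hE2⟩ := exists_small_dense F
    have dE : Dense E := fun x => by
      have := closure_mono hE2 (hh x)
      rwa [closure_closure] at this
    exact absurd ((hmin E dE).trans hE) (not_le.2 (max_lt hκ hF))
  obtain ⟨α, β, a0, ab, F₀, hF₀, hb⟩ := gain q hc h1 (abs_nonneg C) h2' hq hκ.le hnd
  exact greedy hκ.le hD.le dD a0 ab hF₀ hb

open Pool.Agent.R571.PC in
theorem gamma_lt_two' (h : HasEquivUCNorm X) : gamma X < 2 := by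
  obtain ⟨r, hr, r0, P, hP1, hP2⟩ := main h
  refine lt_of_le_of_lt (csInf_le ⟨0, fun x hx => hx.1.le⟩ ⟨r0, P, hP1, hP2⟩) hr

end Pool.Agent.Helper32.PC
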